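import Mathlib
import Pool.Agent.Helper55.JS.Walks

/-!
# Project JS, piece JS-12: the number of copies of a spider
-/

set_option autoImplicit false

namespace Pool.Agent.Helper55.JS

open Finset

namespace P12

variable {V : Type} [Fintype V] [DecidableEq V] {G : SimpleGraph V}

open Classical in
/-- walks of length `m` starting at `u` -/
noncomputable def wf (G : SimpleGraph V) (m : ℕ) (u : V) : Finset (Fin (m + 1) → V) :=
  univ.filter fun p => IsWalk G p ∧ p 0 = u

lemma mem_wf {m : ℕ} {u : V} {p : Fin (m + 1) → V} : p ∈ wf G m u ↔ IsWalk G p ∧ p 0 = u := by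
  unfold wf; simp

/-- fibre over the end point -/
lemma card_wf_filter (m : ℕ) (u : V) (P : (Fin (m + 1) → V) → Prop) [DecidablePred P] :
    (((wf G m u).filter P).card : ℝ) = ∑ y, (((wk G m u y).filter P).card : ℝ) := by
  classical
  rw [← Nat.cast_sum]
  congr 1
  rw [card_eq_sum_card_fiberwise (f := fun p : Fin (m + 1) → V => p (Fin.last m))
    (t := (univ : Finset V)) (fun _ _ => mem_coe.2 (mem_univ _))]
  refine sum_congr rfl fun y _ => ?_
  congr 1
  ext p
  rw [mem_filter, mem_filter, mem_filter, mem_wf, mem_wk]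
  constructor
  · rintro ⟨⟨⟨h1, h2⟩, h3⟩, h4⟩
    exact ⟨⟨h1, h2, h4⟩, h3⟩
  · rintro ⟨⟨h1, h2, h4⟩, h3⟩
    exact ⟨⟨⟨h1, h2⟩, h3⟩, h4⟩

lemma card_wf (m : ℕ) (u : V) : ((wf G m u).card : ℝ) = ∑ y, W G m u y := by
  classical
  have h := card_wf_filter (G := G) m u (fun _ => True)
  simp only [filter_true] at h
  rw [h]
  exact sum_congr rfl fun y _ => card_wk _ _ _

lemma card_wf_one {m a : ℕ} (ha : a ≤ m) (u z : V) {L : ℝ} (hL : ∀ x, dg G x ≤ L) :
    (((wf G m u).filter fun p => p ⟨a, by omega⟩ = z).card : ℝ) ≤ W G a u z * L ^ (m - a) := by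
  rw [card_wf_filter]
  have h := fun y => card_wk_one (G := G) ha u y z
  refine (sum_le_sum fun y _ => h y).trans ?_
  rw [← mul_sum]
  have h1 : ∑ y, W G (m - a) z y ≤ L ^ (m - a) := W_sum_le hL (m - a) z
  have h2 : 0 ≤ W G a u z := W_nonneg a u z
  exact mul_le_mul_of_nonneg_left h1 h2

lemma card_wf_two {m a b : ℕ} (hab : a ≤ b) (hb : b ≤ m) (u z : V) {L : ℝ}
    (hL : ∀ x, dg G x ≤ L) :
    (((wf G m u).filter fun p => p ⟨a, by omega⟩ = z ∧ p ⟨b, by omega⟩ = z).card : ℝ) ≤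
      W G a u z * W G (b - a) z z * L ^ (m - b) := by
  rw [card_wf_filter]
  have h := fun y => card_wk_two (G := G) hab hb u y z z
  refine (sum_le_sum fun y _ => h y).trans ?_
  rw [← mul_sum]
  have h1 : ∑ y, W G (m - b) z y ≤ L ^ (m - b) := W_sum_le hL (m - b) z
  have h2 : 0 ≤ W G a u z := W_nonneg a u z
  have h3 : 0 ≤ W G (b - a) z z := W_nonneg (b - a) z z
  exact mul_le_mul_of_nonneg_left h1 (mul_nonneg h2 h3)

/-- walks in which two positions coincide -/
lemma card_wf_eq {m a b : ℕ} (hab : a < b) (hb : b ≤ m) (u : V) {L B : ℝ} (hL0 : 0 ≤ L)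
    (hL : ∀ x, dg G x ≤ L) (hB : ∀ z, W G (b - a) z z ≤ B) (hB0 : 0 ≤ B) :
    (((wf G m u).filter fun p => p ⟨a, by omega⟩ = p ⟨b, by omega⟩).card : ℝ) ≤
      L ^ a * B * L ^ (m - b) := by
  have h1 : ((((wf G m u).filter fun p => p ⟨a, by omega⟩ = p ⟨b, by omega⟩).card : ℕ) : ℝ) =
      ∑ z, (((wf G m u).filter fun p => p ⟨a, by omega⟩ = z ∧ p ⟨b, by omega⟩ = z).card : ℝ) := by
    rw [← Nat.cast_sum]
    congr 1
    rw [card_eq_sum_card_fiberwise (f := fun p : Fin (m + 1) → V => p ⟨b, by omega⟩)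
      (t := (univ : Finset V)) (fun _ _ => mem_coe.2 (mem_univ _))]
    refine sum_congr rfl fun y _ => ?_
    congr 1
    ext p
    simp only [mem_filter]
    constructor
    · rintro ⟨⟨h1, h2⟩, h3⟩
      exact ⟨h1, h2.trans h3, h3⟩
    · rintro ⟨h1, h2, h3⟩
      exact ⟨⟨h1, h2.trans h3.symm⟩, h3⟩
  rw [h1]
  have h := fun z => card_wf_two (G := G) hab.le hb u z hL
  have h5 : 0 ≤ L ^ (m - b) := pow_nonneg hL0 _
  have h4 : ∀ z, W G a u z * W G (b - a) z z * L ^ (m - b) ≤
      W G a u z * B * L ^ (m - b) := fun z => by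
    have h2 : 0 ≤ W G a u z := W_nonneg a u z
    exact mul_le_mul_of_nonneg_right (mul_le_mul_of_nonneg_left (hB z) h2) h5
  refine (sum_le_sum fun z _ => (h z).trans (h4 z)).trans ?_
  rw [← sum_mul, ← sum_mul]
  have h2 : ∑ z, W G a u z ≤ L ^ a := W_sum_le hL a u
  exact mul_le_mul_of_nonneg_right (mul_le_mul_of_nonneg_right h2 hB0) h5

variable {s : ℕ} (j : Fin s → ℕ)

open Classical in
/-- homomorphic images of the spider -/
noncomputable def hm (G : SimpleGraph V) (j : Fin s → ℕ) : Finset (V × Legs V j) :=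
  univ.filter fun f => ∀ c, f.2 c ∈ wf G (j c) f.1

/-- fibre over the centre -/
lemma card_hm_filter (P : V × Legs V j → Prop) [DecidablePred P] :
    ((hm G j).filter P).card =
      ∑ u, ((Fintype.piFinset fun c => wf G (j c) u).filter fun p => P (u, p)).card := by
  classical
  rw [card_eq_sum_card_fiberwise (f := fun f : V × Legs V j => f.1)
    (t := (univ : Finset V)) (fun _ _ => mem_coe.2 (mem_univ _))]
  refine sum_congr rfl fun u _ => ?_
  refine card_bij' (fun f _ => f.2) (fun p _ => (u, p)) ?_ ?_ ?_ ?_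
  · rintro ⟨u', p⟩ h
    simp only [hm, mem_filter, mem_univ, true_and] at h
    obtain ⟨⟨h1, h2⟩, h3⟩ := h
    subst h3
    simp only [mem_filter, Fintype.mem_piFinset]
    exact ⟨h1, h2⟩
  · intro p h
    simp only [mem_filter, Fintype.mem_piFinset] at h
    simp only [hm, mem_filter, mem_univ, true_and]
    exact ⟨h, trivial⟩
  · rintro ⟨u', p⟩ h
    simp only [hm, mem_filter, mem_univ, true_and] at h
    rw [h.2]
  · intro p h
    rfl

lemma card_hm_ge {D : ℝ} (hD : ∀ v, D ^ 2 ≤ dg G v) :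
    (Fintype.card V : ℝ) * D ^ (2 * ∑ c, j c) ≤ ((hm G j).card : ℝ) := by
  classical
  have h := card_hm_filter (G := G) j (fun _ => True)
  simp only [filter_true] at h
  rw [h, Nat.cast_sum]
  have h2 : (Fintype.card V : ℝ) * D ^ (2 * ∑ c, j c) = ∑ _u : V, D ^ (2 * ∑ c, j c) := by
    rw [sum_const, card_univ, nsmul_eq_mul]
  rw [h2]
  refine sum_le_sum fun u _ => ?_
  rw [Fintype.card_piFinset, Nat.cast_prod, pow_mul, ← prod_pow_eq_pow_sum]
  refine prod_le_prod (fun c _ => pow_nonneg (sq_nonneg _) _) fun c _ => ?_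
  rw [card_wf]
  exact W_sum_ge (sq_nonneg _) hD _ _

omit [DecidableEq V] in
lemma card_pi_one {F : Fin s → Type} (A : ∀ x, Finset (F x)) (c : Fin s) (S : Finset (F c)) :
    ((Fintype.piFinset (Function.update A c S)).card : ℝ) =
      (S.card : ℝ) * ∏ x ∈ univ.erase c, ((A x).card : ℝ) := by
  rw [Fintype.card_piFinset, Nat.cast_prod, ← mul_prod_erase univ _ (mem_univ c),
    Function.update_self]
  congr 1
  refine prod_congr rfl fun x hx => ?_
  rw [Function.update_of_ne (ne_of_mem_erase hx)]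

omit [DecidableEq V] in
lemma card_pi_two {F : Fin s → Type} (A : ∀ x, Finset (F x)) {c c' : Fin s} (hc : c ≠ c')
    (S : Finset (F c)) (S' : Finset (F c')) :
    ((Fintype.piFinset (Function.update (Function.update A c S) c' S')).card : ℝ) =
      (S'.card : ℝ) * ((S.card : ℝ) * ∏ x ∈ (univ.erase c').erase c, ((A x).card : ℝ)) := by
  rw [card_pi_one, ← mul_prod_erase (univ.erase c') _ (mem_erase.2 ⟨hc, mem_univ c⟩),
    Function.update_self]
  congr 2
  refine prod_congr rfl fun x hx => ?_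
  rw [Function.update_of_ne (ne_of_mem_erase hx)]

lemma card_wf_le {L : ℝ} (hL : ∀ x, dg G x ≤ L) (m : ℕ) (u : V) :
    ((wf G m u).card : ℝ) ≤ L ^ m := by
  rw [card_wf]
  exact W_sum_le hL m u

/-- two positions on the same leg -/
lemma same_leg {L B : ℝ} (hL0 : 0 ≤ L) (hL : ∀ x, dg G x ≤ L) (c : Fin s) {a b : ℕ}
    (hab : a < b) (hb : b ≤ j c) (hB : ∀ z, W G (b - a) z z ≤ B) (hB0 : 0 ≤ B) :
    (((hm G j).filter fun f => f.2 c ⟨a, by omega⟩ = f.2 c ⟨b, by omega⟩).card : ℝ) *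
      L ^ (b - a) ≤ Fintype.card V * (B * L ^ (∑ c, j c)) := by
  have h := card_hm_filter (G := G) j
    (fun f => f.2 c ⟨a, by omega⟩ = f.2 c ⟨b, by omega⟩)
  dsimp only at h
  rw [h, Nat.cast_sum, sum_mul]
  have h2 : (Fintype.card V : ℝ) * (B * L ^ (∑ c, j c)) = ∑ _u : V, (B * L ^ (∑ c, j c)) := by
    rw [sum_const, card_univ, nsmul_eq_mul]
  rw [h2]
  refine sum_le_sum fun u _ => ?_
  have h3 : ((Fintype.piFinset fun c => wf G (j c) u).filter
      fun p : Legs V j => p c ⟨a, by omega⟩ = p c ⟨b, by omega⟩) =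
      Fintype.piFinset (Function.update (fun c => wf G (j c) u) c
        ((wf G (j c) u).filter fun p => p ⟨a, by omega⟩ = p ⟨b, by omega⟩)) := by
    ext p
    rw [mem_filter, Fintype.mem_piFinset, Fintype.mem_piFinset]
    constructor
    · rintro ⟨h1, h2⟩ x
      by_cases hx : x = c
      · subst hx
        rw [Function.update_self, mem_filter]
        exact ⟨h1 x, h2⟩
      · rw [Function.update_of_ne hx]
        exact h1 x
    · intro h1
      have h5 := h1 c
      rw [Function.update_self, mem_filter] at h5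
      refine ⟨fun x => ?_, h5.2⟩
      by_cases hx : x = c
      · subst hx
        exact h5.1
      · have h6 := h1 x
        rw [Function.update_of_ne hx] at h6
        exact h6
  rw [h3, card_pi_one]
  have h4 := card_wf_eq (G := G) hab hb u hL0 hL hB hB0
  have h5 : ∏ x ∈ univ.erase c, ((wf G (j x) u).card : ℝ) ≤ ∏ x ∈ univ.erase c, L ^ j x :=
    prod_le_prod (fun x _ => Nat.cast_nonneg _) fun x _ => card_wf_le hL _ _
  have h6 : L ^ (∑ c, j c) = L ^ j c * ∏ x ∈ univ.erase c, L ^ j x := by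
    rw [mul_prod_erase univ (fun x => L ^ j x) (mem_univ c), prod_pow_eq_pow_sum]
  have h7 : L ^ a * L ^ (j c - b) * L ^ (b - a) = L ^ j c := by
    rw [← pow_add, ← pow_add]
    congr 1
    omega
  rw [h6]
  calc _ ≤ (L ^ a * B * L ^ (j c - b)) * (∏ x ∈ univ.erase c, L ^ j x) * L ^ (b - a) := by
        refine mul_le_mul_of_nonneg_right ?_ (pow_nonneg hL0 _)
        exact mul_le_mul h4 h5 (prod_nonneg fun x _ => Nat.cast_nonneg _)
          (mul_nonneg (mul_nonneg (pow_nonneg hL0 _) hB0) (pow_nonneg hL0 _))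
    _ = B * ((L ^ a * L ^ (j c - b) * L ^ (b - a)) * ∏ x ∈ univ.erase c, L ^ j x) := by ring
    _ = _ := by rw [h7]

/-- two positions on different legs -/
lemma diff_leg {L B : ℝ} (hL0 : 0 ≤ L) (hL : ∀ x, dg G x ≤ L) {c c' : Fin s} (hc : c ≠ c')
    {a b : ℕ} (ha : a ≤ j c) (hb : b ≤ j c') (hB : ∀ z, W G (a + b) z z ≤ B) :
    (((hm G j).filter fun f => f.2 c ⟨a, by omega⟩ = f.2 c' ⟨b, by omega⟩).card : ℝ) *
      L ^ (a + b) ≤ Fintype.card V * (B * L ^ (∑ c, j c)) := by
  have h := card_hm_filter (G := G) j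
    (fun f => f.2 c ⟨a, by omega⟩ = f.2 c' ⟨b, by omega⟩)
  dsimp only at h
  rw [h, Nat.cast_sum, sum_mul]
  have h2 : (Fintype.card V : ℝ) * (B * L ^ (∑ c, j c)) = ∑ _u : V, (B * L ^ (∑ c, j c)) := by
    rw [sum_const, card_univ, nsmul_eq_mul]
  rw [h2]
  refine sum_le_sum fun u _ => ?_
  have h3 : (((Fintype.piFinset fun c => wf G (j c) u).filter
      fun p : Legs V j => p c ⟨a, by omega⟩ = p c' ⟨b, by omega⟩).card : ℝ) = ∑ z,
      ((Fintype.piFinset (Function.update (Function.update (fun c => wf G (j c) u) c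
        ((wf G (j c) u).filter fun p => p ⟨a, by omega⟩ = z)) c'
        ((wf G (j c') u).filter fun p => p ⟨b, by omega⟩ = z))).card : ℝ) := by
    rw [← Nat.cast_sum]
    congr 1
    rw [card_eq_sum_card_fiberwise (f := fun p : Legs V j => p c' ⟨b, by omega⟩)
      (t := (univ : Finset V)) (fun _ _ => mem_coe.2 (mem_univ _))]
    refine sum_congr rfl fun z _ => ?_
    congr 1
    ext p
    rw [mem_filter, mem_filter, Fintype.mem_piFinset, Fintype.mem_piFinset]
    constructor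
    · rintro ⟨⟨h1, h2⟩, h3⟩ x
      by_cases hx : x = c'
      · subst hx
        rw [Function.update_self, mem_filter]
        exact ⟨h1 x, h3⟩
      · rw [Function.update_of_ne hx]
        by_cases hx' : x = c
        · subst hx'
          rw [Function.update_self, mem_filter]
          exact ⟨h1 x, h2.trans h3⟩
        · rw [Function.update_of_ne hx']
          exact h1 x
    · intro h1
      have h5 := h1 c'
      rw [Function.update_self, mem_filter] at h5
      have h7 := h1 c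
      rw [Function.update_of_ne hc, Function.update_self, mem_filter] at h7
      refine ⟨⟨fun x => ?_, h7.2.trans h5.2.symm⟩, h5.2⟩
      by_cases hx : x = c'
      · subst hx
        exact h5.1
      · by_cases hx' : x = c
        · subst hx'
          exact h7.1
        · have h6 := h1 x
          rw [Function.update_of_ne hx, Function.update_of_ne hx'] at h6
          exact h6
  rw [h3]
  set P : ℝ := ∏ x ∈ (univ.erase c').erase c, L ^ j x with hP
  have hP0 : 0 ≤ P := prod_nonneg fun x _ => pow_nonneg hL0 _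
  have h4 : ∀ z, ((Fintype.piFinset (Function.update (Function.update (fun c => wf G (j c) u) c
        ((wf G (j c) u).filter fun p => p ⟨a, by omega⟩ = z)) c'
        ((wf G (j c') u).filter fun p => p ⟨b, by omega⟩ = z))).card : ℝ) ≤
      (W G a u z * W G b z u) * (L ^ (j c' - b) * L ^ (j c - a) * P) := fun z => by
    rw [card_pi_two _ hc]
    have h5 := card_wf_one (G := G) ha u z hL
    have h6 := card_wf_one (G := G) hb u z hL
    have h7 : ∏ x ∈ (univ.erase c').erase c, ((wf G (j x) u).card : ℝ) ≤ P :=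
      prod_le_prod (fun x _ => Nat.cast_nonneg _) fun x _ => card_wf_le hL _ _
    have h8 : 0 ≤ W G a u z := W_nonneg a u z
    have h9 : 0 ≤ W G b u z := W_nonneg b u z
    rw [W_symm b z u]
    calc _ ≤ (W G b u z * L ^ (j c' - b)) * ((W G a u z * L ^ (j c - a)) * P) := by
          refine mul_le_mul h6 (mul_le_mul h5 h7 (prod_nonneg fun x _ => Nat.cast_nonneg _)
            (mul_nonneg h8 (pow_nonneg hL0 _))) (mul_nonneg (Nat.cast_nonneg _)
            (prod_nonneg fun x _ => Nat.cast_nonneg _)) (mul_nonneg h9 (pow_nonneg hL0 _))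
      _ = _ := by ring
  have h6 : L ^ (∑ c, j c) = L ^ j c' * (L ^ j c * P) := by
    rw [hP, mul_prod_erase (univ.erase c') (fun x => L ^ j x) (mem_erase.2 ⟨hc, mem_univ c⟩),
      mul_prod_erase univ (fun x => L ^ j x) (mem_univ c'), prod_pow_eq_pow_sum]
  have h7 : L ^ (j c' - b) * L ^ (j c - a) * L ^ (a + b) = L ^ j c' * L ^ j c := by
    rw [← pow_add, ← pow_add, ← pow_add]
    congr 1
    omega
  have h8 := (sum_le_sum fun z (_ : z ∈ (univ : Finset V)) => h4 z)
  rw [← sum_mul, ← W_add] at h8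
  have h9 : 0 ≤ L ^ (j c' - b) * L ^ (j c - a) * P :=
    mul_nonneg (mul_nonneg (pow_nonneg hL0 _) (pow_nonneg hL0 _)) hP0
  have h10 := h8.trans (mul_le_mul_of_nonneg_right (hB u) h9)
  rw [h6]
  calc _ ≤ (B * (L ^ (j c' - b) * L ^ (j c - a) * P)) * L ^ (a + b) :=
        mul_le_mul_of_nonneg_right h10 (pow_nonneg hL0 _)
    _ = B * ((L ^ (j c' - b) * L ^ (j c - a) * L ^ (a + b)) * P) := by ring
    _ = _ := by rw [h7]; ring

/-- the number of homomorphisms with a coincidence of two positions -/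
lemma bad_le {L D T : ℝ} {k : ℕ} (hjk : ∀ c, j c ≤ k) (hD : 1 ≤ D) (hLD : D ^ 2 ≤ L) (hT : 1 ≤ T)
    (hL : ∀ x, dg G x ≤ L) (hW : ∀ m ≤ 2 * k, ∀ x y, W G m x y ≤ T * D ^ m)
    (a a' : Σ c : Fin s, Fin (j c + 1)) (ha : a.2 ≠ 0)
    (haa : ¬ (a.1 = a'.1 ∧ (a.2 : ℕ) = a'.2)) :
    (((hm G j).filter fun f => f.2 a.1 a.2 = f.2 a'.1 a'.2).card : ℝ) * D ^ 2 ≤
      Fintype.card V * (T * L ^ (∑ c, j c)) := by
  obtain ⟨c, i, hi⟩ := a
  obtain ⟨c', i', hi'⟩ := a'
  have hD0 : 0 < D := by linarith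
  have hL1 : 1 ≤ L := le_trans (one_le_pow₀ hD) hLD
  have hL0 : 0 < L := by linarith
  have key : ∀ r, 1 ≤ r → r ≤ 2 * k → ∀ z, W G r z z ≤ T * L ^ r / D ^ 2 := by
    intro r hr hrk z
    rw [le_div_iff₀ (pow_pos hD0 2)]
    by_cases hr1 : r = 1
    · subst hr1
      rw [W_one_self, zero_mul]
      exact mul_nonneg (by linarith) (pow_nonneg hL0.le _)
    · have h1 := hW r hrk z z
      calc W G r z z * D ^ 2 ≤ T * D ^ r * D ^ 2 :=
            mul_le_mul_of_nonneg_right h1 (sq_nonneg _)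
        _ = T * D ^ (r + 2) := by ring
        _ ≤ T * D ^ (2 * r) := by
            refine mul_le_mul_of_nonneg_left (pow_le_pow_right₀ hD (by omega)) (by linarith)
        _ = T * (D ^ 2) ^ r := by rw [pow_mul]
        _ ≤ T * L ^ r := by
            refine mul_le_mul_of_nonneg_left (pow_le_pow_left₀ (sq_nonneg _) hLD _) (by linarith)
  have fin : ∀ (r : ℕ) (X : ℝ), X * L ^ r ≤ Fintype.card V *
      ((T * L ^ r / D ^ 2) * L ^ (∑ c, j c)) → X * D ^ 2 ≤
      Fintype.card V * (T * L ^ (∑ c, j c)) := by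
    intro r X hX
    have h1 : 0 < L ^ r := pow_pos hL0 _
    have h2 : 0 < D ^ 2 := pow_pos hD0 _
    have h3 : (Fintype.card V : ℝ) * ((T * L ^ r / D ^ 2) * L ^ (∑ c, j c)) =
        (Fintype.card V * (T * L ^ (∑ c, j c)) / D ^ 2) * L ^ r := by ring
    rw [h3] at hX
    have h4 := le_of_mul_le_mul_right hX h1
    rwa [le_div_iff₀ h2] at h4
  have hB0 : ∀ r, 0 ≤ T * L ^ r / D ^ 2 := fun r =>
    div_nonneg (mul_nonneg (by linarith) (pow_nonneg hL0.le _)) (sq_nonneg _)
  have hi0 : i ≠ 0 := by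
    intro h
    apply ha
    exact Fin.ext h
  have hjc := hjk c
  have hjc' := hjk c'
  by_cases hcc : c = c'
  · subst hcc
    have hii : i ≠ i' := fun h => haa ⟨rfl, h⟩
    rcases lt_or_gt_of_ne hii with h | h
    · exact fin (i' - i) _ (same_leg j hL0.le hL c h (by omega)
        (key (i' - i) (by omega) (by omega)) (hB0 _))
    · have h1 := fin (i - i') _ (same_leg j hL0.le hL c h (by omega)
        (key (i - i') (by omega) (by omega)) (hB0 _))
      have h2 : ((hm G j).filter fun f => f.2 c ⟨i, hi⟩ = f.2 c ⟨i', hi'⟩) =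
          (hm G j).filter fun f => f.2 c ⟨i', hi'⟩ = f.2 c ⟨i, hi⟩ :=
        filter_congr fun f _ => eq_comm
      dsimp only
      rw [h2]
      exact h1
  · exact fin (i + i') _ (diff_leg j hL0.le hL hcc (by omega) (by omega)
      (key (i + i') (by omega) (by omega)))

end P12

/-- JS-12 -/
theorem card_copies {s : ℕ} (j : Fin s → ℕ) {k : ℕ} (hjk : ∀ c, j c ≤ k) {K T : ℝ} (hK : 1 ≤ K)
    (hT : 1 ≤ T) : ∃ D0 : ℝ, ∀ (V : Type) [Fintype V] [DecidableEq V] (G : SimpleGraph V)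
      (D : ℝ), D0 ≤ D → 1 ≤ D → (∀ v, D ^ 2 ≤ dg G v) → (∀ v, dg G v ≤ K * D ^ 2) →
      (∀ m ≤ 2 * k, ∀ x y, W G m x y ≤ T * D ^ m) →
      (Fintype.card V : ℝ) * D ^ (2 * ∑ c, j c) / 2 ≤ ((cps G j).card : ℝ) := by
  classical
  set Q : ℕ := Fintype.card ((Σ c : Fin s, Fin (j c + 1)) × (Σ c : Fin s, Fin (j c + 1))) with hQ
  refine ⟨2 * (Q * (T * K ^ (∑ c, j c))), ?_⟩
  intro V _ _ G D hD0 hD1 hd hdK hW
  set e : ℕ := ∑ c, j c with he
  set L : ℝ := K * D ^ 2 with hLdef
  have hDp : 0 < D := by linarith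
  have hLD : D ^ 2 ≤ L := by
    rw [hLdef]
    nlinarith [sq_nonneg D]
  set bad : Finset ((Σ c : Fin s, Fin (j c + 1)) × (Σ c : Fin s, Fin (j c + 1))) :=
    univ.filter fun q => q.1.2 ≠ 0 ∧ ¬ (q.1.1 = q.2.1 ∧ (q.1.2 : ℕ) = q.2.2) with hbad
  have hsub : P12.hm G j ⊆ cps G j ∪ bad.biUnion fun q =>
      (P12.hm G j).filter fun f => f.2 q.1.1 q.1.2 = f.2 q.2.1 q.2.2 := by
    intro f hf
    rw [mem_union]
    by_cases h : ∃ q ∈ bad, f.2 q.1.1 q.1.2 = f.2 q.2.1 q.2.2
    · right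
      obtain ⟨q, hq1, hq2⟩ := h
      exact mem_biUnion.2 ⟨q, hq1, mem_filter.2 ⟨hf, hq2⟩⟩
    · left
      simp only [P12.hm, mem_filter, mem_univ, true_and] at hf
      simp only [cps, mem_filter, mem_univ, true_and]
      refine ⟨fun c => (P12.mem_wf.1 (hf c)).2, fun c => (P12.mem_wf.1 (hf c)).1, ?_⟩
      intro c c' i i' hi hii
      by_contra hcon
      apply h
      exact ⟨(⟨c, i⟩, ⟨c', i'⟩), by rw [hbad]; simp only [mem_filter, mem_univ, true_and]; exact ⟨hi, hcon⟩, hii⟩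
  have h1 := (card_le_card hsub).trans (card_union_le _ _)
  have h2 := h1.trans (Nat.add_le_add_left card_biUnion_le _)
  have h3 : ((P12.hm G j).card : ℝ) ≤ ((cps G j).card : ℝ) + ∑ q ∈ bad,
      (((P12.hm G j).filter fun f => f.2 q.1.1 q.1.2 = f.2 q.2.1 q.2.2).card : ℝ) := by
    exact_mod_cast h2
  have h4 : (∑ q ∈ bad, (((P12.hm G j).filter
      fun f => f.2 q.1.1 q.1.2 = f.2 q.2.1 q.2.2).card : ℝ)) * D ^ 2 ≤
      Q * (Fintype.card V * (T * L ^ e)) := by
    rw [sum_mul]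
    have h5 : ∀ q ∈ bad, (((P12.hm G j).filter
        fun f => f.2 q.1.1 q.1.2 = f.2 q.2.1 q.2.2).card : ℝ) * D ^ 2 ≤
        Fintype.card V * (T * L ^ e) := by
      intro q hq
      rw [hbad] at hq
      simp only [mem_filter, mem_univ, true_and] at hq
      have := P12.bad_le (G := G) j hjk hD1 hLD hT hdK hW q.1 q.2 hq.1 hq.2
      convert this
    refine (sum_le_card_nsmul _ _ _ h5).trans ?_
    rw [nsmul_eq_mul]
    refine mul_le_mul_of_nonneg_right ?_ ?_
    · rw [hQ]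
      exact_mod_cast card_le_univ bad
    · have : 0 ≤ L := (sq_nonneg D).trans hLD
      exact mul_nonneg (Nat.cast_nonneg _) (mul_nonneg (by linarith) (pow_nonneg this _))
  have h5 := P12.card_hm_ge (G := G) j hd
  have h6 : L ^ e = K ^ e * D ^ (2 * e) := by
    rw [hLdef, mul_pow, pow_mul]
  set X : ℝ := ∑ q ∈ bad, (((P12.hm G j).filter
      fun f => f.2 q.1.1 q.1.2 = f.2 q.2.1 q.2.2).card : ℝ) with hX
  have h7 : X * D ^ 2 ≤ ((Fintype.card V : ℝ) * D ^ (2 * e) / 2) * D ^ 2 := by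
    refine h4.trans ?_
    rw [h6]
    have h8 : (Q : ℝ) * (T * K ^ e) ≤ D ^ 2 / 2 := by nlinarith
    calc (Q : ℝ) * (Fintype.card V * (T * (K ^ e * D ^ (2 * e)))) =
          (Q * (T * K ^ e)) * (Fintype.card V * D ^ (2 * e)) := by ring
      _ ≤ (D ^ 2 / 2) * (Fintype.card V * D ^ (2 * e)) :=
          mul_le_mul_of_nonneg_right h8 (mul_nonneg (Nat.cast_nonneg _) (pow_nonneg hDp.le _))
      _ = _ := by ring
  have h8 := le_of_mul_le_mul_right h7 (pow_pos hDp 2)
  linarith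

end Pool.Agent.Helper55.JS
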